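import Pool.Agent.Y579.PP.Unif
import Pool.Agent.Y579.PP.One

/-!
# Degree invariance is invariance under two reductions

`W r X` is the set c.e. in `X` with index `r`, `J X` is the jump of `X`, `le Y X` is Turing
reducibility `Y ≤_T X` (Mathlib's), `ch P` is the characteristic function of `P`, and `Red c X Y`
says that the program `c` reduces `Y` to `X` (`Pool/Agent/H639/LU/Defs.lean`; `Y ≤_T X` holds if
and only if some program reduces `Y` to `X`). `flip X` is `X` with the first digit changed.

1. There is one pair of programs `(i, j)` such that Turing equivalence is the equivalence relation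
generated by the pairs `X`, `flip X` and the pairs `X`, `Y` for which `i` reduces `Y` to `X` and
`j` reduces `X` to `Y`. The program `j` can be taken to be a primitive recursive operation.
On the other hand, one pair of programs never generates Turing equivalence, not even on the
computable sets. As the change of the first digit is itself given by a program, two is the
least number of pairs of programs which generate Turing equivalence.

2. So an operator `W_r` is degree invariant if and only if it is invariant in these two cases, and
the question about degree invariant solutions to Post's problem is a question about the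
change of the first digit and one pair of programs. For the changes of the first digit
alone, and for each pair of programs alone, there are invariant solutions: see
`ComputableDifferences`, `SingleTuringPair` and `OneProgramManyBack` in this folder.

3. Lachlan's theorem (no solution is uniformly degree invariant) holds already for these two
reductions: if `W_r` solves Post's problem on a cone, then in no cone there are a finite list of
programs for the change of the first digit and fixed programs for the pair `(i, j)`.

Proof. With `0` and `1` in front of `Z` the pair relates `1 Z` with `1 0 Z`, then `0 0 Z` with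
`0 0 1 Z`, and `0 1 0ᵏ 1 X` with `0 1 0ᵏ 1 (X ⊕ Φ_k(X))`, where `Φ_k` is given by the `k`-th program
(for odd `k` the two parts of the join are exchanged; the way back is a projection). Together with
the changes of the first digit, the first two rules relate `b Z` with `b' σ Z` for all digits `b`,
`b'` and all words `σ`, so `X` with `0 1 0ᵏ 1 X`. So all `X`, `Y` of the same degree are related,
via `X ⊕ Y`. Here the number of changes of the first digit is bounded, and the theorem on bounded
lists of candidates (`BoundedNonuniformity`) gives 3. The orbit of the sequence `000…` under one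
pair is a uniformly computable sequence, so it does not contain all computable sets.
-/

set_option autoImplicit false

namespace Pool.Agent.Results.MP_57825d_lc.FlipAndOnePair

open Nat.Partrec (Code)
open Pool.Agent.H639.LU Pool.Agent.Y579.PP

theorem red_flip_iff : ∃ c : Code, ∀ X Y : ℕ → Bool, Red c X Y ↔ Y = flip X := by
  obtain ⟨c, hc⟩ := red_flip
  refine ⟨c, fun X Y => ⟨fun h => red_unique h (hc X), ?_⟩⟩
  rintro rfl
  exact hc X

theorem result :
    (∃ i j : Code,
      -- `j` is a primitive recursive operation
      (∃ (δ : ℕ × List Bool → Bool) (u : ℕ → ℕ), Primrec δ ∧ Primrec u ∧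
        ∀ X Y : ℕ → Bool, Red j X Y ↔ ∀ n, Y n = δ (n, (List.range (u n)).map X)) ∧
      -- 1. the two reductions generate Turing equivalence
      (∀ X Y : ℕ → Bool, (le X Y ∧ le Y X) ↔
        Relation.EqvGen (fun X Y => Y = flip X ∨ (Red i X Y ∧ Red j Y X)) X Y) ∧
      -- 2. degree invariance of an operator
      (∀ r : Code,
        (∀ X Y : ℕ → Bool, le X Y ∧ le Y X →
          le (ch (W r X)) (ch (W r Y)) ∧ le (ch (W r Y)) (ch (W r X))) ↔
        (∀ X : ℕ → Bool, le (ch (W r (flip X))) (ch (W r X))) ∧
          ∀ X Y : ℕ → Bool, Red i X Y → Red j Y X →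
            le (ch (W r X)) (ch (W r Y)) ∧ le (ch (W r Y)) (ch (W r X))) ∧
      -- 3. no solution to Post's problem is uniformly invariant under the two reductions
      (∀ (r : Code) (z₀ : ℕ → Bool),
        (∀ X, le z₀ X → ¬ le (ch (W r X)) X ∧ le X (ch (W r X)) ∧ ¬ le (ch (J X)) (ch (W r X))) →
        ¬ ∃ (z : ℕ → Bool) (A : Finset Code) (b b' : Code),
          (∀ X, le z X → ∃ a ∈ A, Red a (ch (W r X)) (ch (W r (flip X)))) ∧
          ∀ X Y, le z X → Red i X Y → Red j Y X →
            Red b (ch (W r X)) (ch (W r Y)) ∧ Red b' (ch (W r Y)) (ch (W r X)))) ∧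
    -- 4. the change of the first digit is given by a program
    (∃ c : Code, ∀ X Y : ℕ → Bool, Red c X Y ↔ Y = flip X) ∧
    -- 5. one pair of programs does not generate Turing equivalence
    ∀ i j : Code, ∃ X Y : ℕ → Bool, Computable X ∧ Computable Y ∧
      ¬ Relation.EqvGen (fun X Y => Red i X Y ∧ Red j Y X) X Y := by
  obtain ⟨i, j, hp, hj⟩ := exists_pair
  refine ⟨⟨i, j, hj, gen_iff hp, fun r => ⟨fun h => ⟨fun X => ?_, fun X Y h1 h2 => ?_⟩, ?_⟩, ?_⟩,
    red_flip_iff, fun i j => ?_⟩
  · exact (h X (flip X) (step_le (i := i) (j := j) (Or.inl rfl))).2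
  · exact h X Y (step_le (i := i) (j := j) (Or.inr ⟨h1, h2⟩))
  · rintro ⟨h1, h2⟩ X Y hXY
    have h := (gen_iff hp X Y).1 hXY
    clear hXY
    induction h with
    | rel X Y h =>
      rcases h with rfl | ⟨h3, h4⟩
      · have h5 := h1 (flip X)
        rw [Pool.Agent.Y579.PP.flip_flip] at h5
        exact ⟨h5, h1 X⟩
      · exact h2 _ _ h3 h4
    | refl _ => exact ⟨Pool.Agent.H869R3.FN.le_refl' _, Pool.Agent.H869R3.FN.le_refl' _⟩
    | symm _ _ _ ih => exact ⟨ih.2, ih.1⟩
    | trans _ _ _ _ _ ih1 ih2 =>
      exact ⟨Pool.Agent.H869R3.FN.le_trans' ih1.1 ih2.1,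
        Pool.Agent.H869R3.FN.le_trans' ih2.2 ih1.2⟩
  · rintro r z₀ hr ⟨z, A, b, b', h1, h2⟩
    exact no_unif hp hr (z := z) (K := A.card + 1) (A := A) (b := b) (b' := b')
      ⟨by omega, by omega, h1, h2⟩
  · obtain ⟨X, Y, h1, h2, -, h3⟩ := one_pair i j
    exact ⟨X, Y, h1, h2, h3⟩

end Pool.Agent.Results.MP_57825d_lc.FlipAndOnePair
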